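import Pool.Agent.X47.CE4

/-!
# The maximal number of complete extensions of an argumentation framework with `n` arguments
-/

namespace Pool.Agent.Results.MP_acab80_co.SigmaMax

open Pool.Agent.X47.CE

universe u

/-- **Q1.** The conjectured value is right: `value n` (that is `1` for `n ≤ 1`, `3 ^ (n / 2)` for
even `n ≥ 2` and `4 * 3 ^ ((n - 3) / 2)` for odd `n ≥ 3`) is the maximal number of complete
extensions of an argumentation framework with `n` arguments; the upper bound is also stated for
finite types in every universe. -/
theorem result :
    (∀ n : ℕ, IsGreatest (comCounts n) (value n)) ∧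
    (∀ (A : Type u) [Fintype A] (R : A → A → Prop), (com R).ncard ≤ value (Fintype.card A)) :=
  ⟨sigma_max, fun _ _ R => count_le R⟩

end Pool.Agent.Results.MP_acab80_co.SigmaMax
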